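import Mathlib

set_option autoImplicit false
open Filter Topology

namespace Pool.Agent.Results.MP_eca5e6_al.ExpGrowth

section
variable {G : Type} [Group G]

open Classical in
noncomputable def W (n : G → ℕ) (B : ℕ → Finset G) (l : ℝ) (k : ℕ) (E : Set G) : ℝ :=
  ∑ x ∈ B k, if x ∈ E then (l ^ n x)⁻¹ else 0

lemma core (n : G → ℕ) (B : ℕ → Finset G) (hB : ∀ k x, x ∈ B k ↔ n x ≤ k) (S : Finset G)
    (hS : ∀ x, x ≠ 1 → ∃ s ∈ S, n (s⁻¹ * x) + 1 = n x)
    (hL : ∀ z x, |(n (z⁻¹ * x) : ℤ) - n x| ≤ n z)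
    (c : ℝ) (hc : 1 < c) (hg : ∀ k, c ^ k ≤ (B k).card) :
    ¬ (closure (Set.range fun x z : G => (n (z⁻¹ * x) : ℤ) - n x)).Countable := by
  classical
  intro hX
  obtain ⟨l, hl1, hlc⟩ := exists_between hc
  have hl0 : 0 < l := by linarith
  have hW0 : ∀ k E, 0 ≤ W n B l k E := fun k E =>
    Finset.sum_nonneg fun x _ => by split_ifs <;> positivity
  have hWm : ∀ k E E', E ⊆ E' → W n B l k E ≤ W n B l k E' := fun k E E' h =>
    Finset.sum_le_sum fun x _ => by
      by_cases hx : x ∈ E
      · rw [if_pos hx, if_pos (h hx)]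
      · rw [if_neg hx]; split_ifs <;> positivity
  have hZ : ∀ k, (c / l) ^ k ≤ W n B l k Set.univ := by
    intro k
    have : ∑ x ∈ B k, (l ^ k)⁻¹ ≤ W n B l k Set.univ := Finset.sum_le_sum fun x hx => by
      rw [if_pos (Set.mem_univ x)]
      exact inv_anti₀ (by positivity) (pow_le_pow_right₀ hl1.le ((hB k x).1 hx))
    rw [Finset.sum_const, nsmul_eq_mul] at this
    rw [div_pow, div_eq_mul_inv]
    exact le_trans (mul_le_mul_of_nonneg_right (hg k) (by positivity)) this
  have hZ0 : ∀ k, 0 < W n B l k Set.univ := fun k => lt_of_lt_of_le (by positivity) (hZ k)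
  have hZt : Tendsto (fun k => W n B l k Set.univ) atTop atTop :=
    tendsto_atTop_mono hZ (tendsto_pow_atTop_atTop_of_one_lt ((one_lt_div hl0).2 hlc))
  have hex : ∀ E : Set G, ∃ a : ℝ,
      Tendsto (fun k => W n B l k E / W n B l k Set.univ) (hyperfilter ℕ) (𝓝 a) := by
    intro E
    obtain ⟨a, -, ha⟩ := (isCompact_Icc (a := (0 : ℝ)) (b := 1)).ultrafilter_le_nhds
      ((hyperfilter ℕ).map fun k => W n B l k E / W n B l k Set.univ) (by
        rw [Ultrafilter.coe_map, le_principal_iff, mem_map]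
        exact Eventually.of_forall fun k => ⟨div_nonneg (hW0 _ _) (hW0 _ _),
          (div_le_one (hZ0 k)).2 (hWm _ _ _ (Set.subset_univ _))⟩)
    exact ⟨a, ha⟩
  choose m hm using hex
  have m1 : m Set.univ = 1 := tendsto_nhds_unique (hm _)
    (tendsto_const_nhds.congr fun k => (div_self (hZ0 k).ne').symm)
  have mm : ∀ E E', E ⊆ E' → m E ≤ m E' := fun E E' h =>
    le_of_tendsto_of_tendsto' (hm E) (hm E') fun k =>
      div_le_div_of_nonneg_right (hWm _ _ _ h) (hW0 _ _)
  have m0 : m {1} = 0 := by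
    refine tendsto_nhds_unique (hm _) ?_
    have h1 : Tendsto (fun k => (l ^ n 1)⁻¹ / W n B l k Set.univ) atTop (𝓝 0) :=
      tendsto_const_nhds.div_atTop hZt
    have h2 : Tendsto (fun k => W n B l k {1} / W n B l k Set.univ) atTop (𝓝 0) := by
      refine squeeze_zero (fun k => div_nonneg (hW0 _ _) (hW0 _ _)) (fun k => ?_) h1
      refine div_le_div_of_nonneg_right ?_ (hW0 _ _)
      unfold W
      simp only [Set.mem_singleton_iff]
      rw [Finset.sum_ite_eq']
      split_ifs
      · exact le_rfl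
      · positivity
    exact h2.mono_left (Nat.cofinite_eq_atTop ▸ hyperfilter_le_cofinite)
  have msub : ∀ (t : Finset (G → ℤ)) (E : (G → ℤ) → Set G), (∀ x, ∃ i ∈ t, x ∈ E i) →
      1 ≤ ∑ i ∈ t, m (E i) := by
    intro t E h
    rw [← m1]
    refine le_of_tendsto_of_tendsto' (hm _) (tendsto_finsetSum t fun i _ => hm (E i)) fun k => ?_
    rw [← Finset.sum_div]
    refine div_le_div_of_nonneg_right ?_ (hW0 _ _)
    unfold W
    rw [Finset.sum_comm]
    refine Finset.sum_le_sum fun x _ => ?_
    obtain ⟨i, hi, hx⟩ := h x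
    rw [if_pos (Set.mem_univ x)]
    refine le_trans ?_ (Finset.single_le_sum
      (f := fun i => if x ∈ E i then (l ^ n x)⁻¹ else 0) (fun j _ => ?_) hi)
    · simp [hx]
    · split_ifs <;> positivity
  have mshift : ∀ (s : G) (E E' : Set G), (∀ x ∈ E, s⁻¹ * x ∈ E' ∧ n (s⁻¹ * x) + 1 = n x) →
      l * m E ≤ m E' := by
    intro s E E' h
    refine le_of_tendsto_of_tendsto' ((hm E).const_mul l) (hm E') fun k => ?_
    rw [← mul_div_assoc]
    refine div_le_div_of_nonneg_right ?_ (hW0 _ _)
    unfold W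
    rw [← Finset.sum_filter, ← Finset.sum_filter, Finset.mul_sum]
    calc ∑ x ∈ (B k).filter (· ∈ E), l * (l ^ n x)⁻¹
        = ∑ x ∈ (B k).filter (· ∈ E), (l ^ n (s⁻¹ * x))⁻¹ := Finset.sum_congr rfl fun x hx => by
          rw [← (h x (Finset.mem_filter.1 hx).2).2, pow_succ]
          field_simp
      _ = ∑ y ∈ ((B k).filter (· ∈ E)).image (fun x => s⁻¹ * x), (l ^ n y)⁻¹ :=
          (Finset.sum_image (f := fun y => (l ^ n y)⁻¹)
            fun a _ b _ e => mul_left_cancel e).symm
      _ ≤ _ := Finset.sum_le_sum_of_subset_of_nonneg (fun y hy => by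
          obtain ⟨x, hx, rfl⟩ := Finset.mem_image.1 hy
          obtain ⟨h1, h2⟩ := Finset.mem_filter.1 hx
          obtain ⟨h3, h4⟩ := h x h2
          rw [hB] at h1
          exact Finset.mem_filter.2 ⟨(hB _ _).2 (by omega), h3⟩) fun _ _ _ => by positivity
  let b : G → G → ℤ := fun x z => (n (z⁻¹ * x) : ℤ) - n x
  let E : (G → ℤ) → Finset G → Set G := fun f T => {x | ∀ y ∈ T, b x y = f y}
  have stepA : ∃ f r, 0 < r ∧ ∀ T, r ≤ m (E f T) := by
    by_contra hcon
    push Not at hcon
    obtain ⟨ε, hε, hs⟩ := hX.exists_pos_forall_sum_le (ε := 1 / 2) (by norm_num)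
    choose T hT using fun f => hcon f (ε f) (hε f)
    have hcomp : IsCompact (closure (Set.range b)) := by
      have hc : IsCompact (Set.pi Set.univ fun y : G => Set.Icc (-(n y : ℤ)) (n y)) :=
        isCompact_univ_pi fun y => isCompact_Icc
      refine hc.of_isClosed_subset isClosed_closure (closure_minimal ?_ hc.isClosed)
      rintro _ ⟨x, rfl⟩ y _
      exact abs_le.1 (hL y x)
    obtain ⟨t, ht, hcov⟩ := hcomp.elim_nhds_subcover (fun f => {g | ∀ y ∈ T f, g y = f y})
      (fun f _ => by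
        refine ((T f).eventually_all).2 fun y _ => ?_
        exact (continuous_apply y).continuousAt.eventually_mem
          ((isOpen_discrete {f y}).mem_nhds rfl))
    have h1 := msub t (fun f => E f (T f)) fun x => by
      have := hcov (subset_closure ⟨x, rfl⟩)
      simp only [Set.mem_iUnion] at this
      obtain ⟨i, hi, hx⟩ := this
      exact ⟨i, hi, hx⟩
    have h2 := hs t ht
    have h3 : ∑ i ∈ t, m (E i (T i)) ≤ ∑ i ∈ t, ε i := Finset.sum_le_sum fun i _ => (hT i).le
    linarith
  have stepB : ∀ f r, 0 < r → (∀ T, r ≤ m (E f T)) → ∃ f', ∀ T, l * r ≤ m (E f' T) := by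
    intro f r hr h
    have : ∃ s ∈ S, f s = -1 := by
      by_contra hcon
      push Not at hcon
      have := mm (E f S) {1} fun x hx => by
        by_contra hx1
        obtain ⟨s, hs, e⟩ := hS x hx1
        apply hcon s hs
        rw [← hx s hs]
        simp only [b]
        omega
      linarith [h S]
    obtain ⟨s, -, hs⟩ := this
    refine ⟨fun y => f (s * y) - f s, fun T => ?_⟩
    refine le_trans (mul_le_mul_of_nonneg_left (h (insert s (T.image fun y => s * y))) hl0.le)
      (mshift s _ _ fun x hx => ?_)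
    have e1 := hx s (Finset.mem_insert_self _ _)
    simp only [b] at e1
    refine ⟨fun y hy => ?_, by omega⟩
    have e2 := hx (s * y) (Finset.mem_insert_of_mem (Finset.mem_image_of_mem _ hy))
    simp only [b, mul_inv_rev, mul_assoc] at e2 ⊢
    omega
  obtain ⟨f0, r, hr, h0⟩ := stepA
  have iter : ∀ j : ℕ, ∃ f, ∀ T, l ^ j * r ≤ m (E f T) := by
    intro j
    induction j with
    | zero => exact ⟨f0, by simpa using h0⟩
    | succ j ih =>
      obtain ⟨f, hf⟩ := ih
      obtain ⟨f', hf'⟩ := stepB f _ (by positivity) hf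
      exact ⟨f', fun T => by rw [pow_succ', mul_assoc]; exact hf' T⟩
  obtain ⟨j, hj⟩ := ((tendsto_pow_atTop_atTop_of_one_lt hl1).atTop_mul_const hr).eventually_gt_atTop
    1 |>.exists
  obtain ⟨f, hf⟩ := iter j
  have := (hf ∅).trans (mm _ _ (Set.subset_univ _))
  linarith

end

theorem result : ∀ (G : Type) [Group G] (S : Finset G),
    Subgroup.closure (S : Set G) = ⊤ →
    ∀ Γ : SimpleGraph G, Γ = SimpleGraph.fromRel (fun g h : G => g⁻¹ * h ∈ S) →
    (∃ c : ℝ, 1 < c ∧ ∀ k : ℕ, c ^ k ≤ ({x | Γ.dist 1 x ≤ k}.ncard : ℝ)) →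
    ∀ A : Set (G → ℤ),
      A = Set.range (fun x : G => fun z : G => ((Γ.dist z x : ℕ) : ℤ) - ((Γ.dist 1 x : ℕ) : ℤ)) →
      ¬ (closure A \ A).Countable := by
  classical
  rintro G _ S hS Γ hΓ ⟨c, hc, hg⟩ A hA hcount
  have hadj : ∀ z g h, Γ.Adj g h → Γ.Adj (z * g) (z * h) := by
    intro z g h
    rw [hΓ]
    simp [SimpleGraph.fromRel_adj, mul_assoc]
  let φ : G → Γ →g Γ := fun z => ⟨fun g => z * g, fun h => hadj z _ _ h⟩
  have hreach : ∀ x, Γ.Reachable 1 x := by
    intro x
    have hx : x ∈ Subgroup.closure (S : Set G) := hS ▸ Subgroup.mem_top x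
    have key : ∀ s y, (s ∈ S ∨ s⁻¹ ∈ S) → Γ.Reachable 1 y → Γ.Reachable 1 (s * y) := by
      intro s y hs hy
      have h1 : Γ.Reachable 1 s := by
        by_cases e : s = 1
        · rw [e]
        · refine SimpleGraph.Adj.reachable ?_
          rw [hΓ, SimpleGraph.fromRel_adj]
          exact ⟨Ne.symm e, by simpa using hs⟩
      have h2 := hy.map (φ s)
      change Γ.Reachable (s * 1) (s * y) at h2
      rw [mul_one] at h2
      exact h1.trans h2
    induction hx using Subgroup.closure_induction_left with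
    | one => rfl
    | mul_left x hx y _ ih => exact key x y (Or.inl hx) ih
    | inv_mul_cancel x hx y _ ih => exact key x⁻¹ y (Or.inr (by simpa using hx)) ih
  have hconn : Γ.Connected := (SimpleGraph.connected_iff_exists_forall_reachable _).2 ⟨1, hreach⟩
  have hle : ∀ z u v, Γ.dist (z * u) (z * v) ≤ Γ.dist u v := by
    intro z u v
    obtain ⟨p, hp⟩ := hconn.exists_walk_length_eq_dist u v
    have := SimpleGraph.dist_le (p.map (φ z))
    rw [SimpleGraph.Walk.length_map, hp] at this
    exact this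
  have hinv : ∀ z x, Γ.dist z x = Γ.dist 1 (z⁻¹ * x) := by
    intro z x
    apply le_antisymm
    · simpa using hle z 1 (z⁻¹ * x)
    · simpa using hle z⁻¹ z x
  have hfin : ∀ k : ℕ, {x | Γ.dist 1 x ≤ k}.Finite := fun k =>
    Set.finite_of_ncard_pos (by
      have : (0 : ℝ) < _ := lt_of_lt_of_le (by positivity) (hg k)
      exact_mod_cast this)
  have hG : Countable G := by
    have : (Set.univ : Set G) = ⋃ r : ℕ, {x | Γ.dist 1 x ≤ r} := by
      ext x; simp only [Set.mem_univ, Set.mem_iUnion, Set.mem_ofPred_eq, true_iff]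
      exact ⟨_, le_rfl⟩
    rw [← Set.countable_univ_iff, this]
    exact Set.countable_iUnion fun r => (hfin r).countable
  refine core (fun x => Γ.dist 1 x) (fun k => (hfin k).toFinset) (fun k x => by simp)
    (S ∪ S.image fun s => s⁻¹) ?_ ?_ c hc (fun k => ?_) ?_
  · intro x hx
    obtain ⟨p, hp⟩ := hconn.exists_walk_length_eq_dist 1 x
    cases p with
    | nil => exact absurd rfl hx
    | cons h q =>
      rename_i s
      refine ⟨s, ?_, ?_⟩
      · rw [hΓ, SimpleGraph.fromRel_adj] at h
        rcases h.2 with h | h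
        · exact Finset.mem_union_left _ (by simpa using h)
        · exact Finset.mem_union_right _ (Finset.mem_image.2 ⟨s⁻¹, by simpa using h, by simp⟩)
      · have h1 := SimpleGraph.dist_le q
        have h2 := hconn.dist_triangle (u := 1) (v := s) (w := x)
        rw [SimpleGraph.dist_eq_one_iff_adj.2 h] at h2
        rw [SimpleGraph.Walk.length_cons] at hp
        simp only [← hinv]
        omega
  · intro z x
    have h1 := hconn.dist_triangle (u := 1) (v := z) (w := x)
    have h2 := hconn.dist_triangle (u := z) (v := 1) (w := x)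
    rw [SimpleGraph.dist_comm (u := z) (v := 1)] at h2
    simp only [← hinv]
    rw [abs_le]
    omega
  · rw [← Set.ncard_eq_toFinset_card _ (hfin k)]
    exact hg k
  · simp only [← hinv]
    rw [← hA]
    have hAc : A.Countable := hA ▸ Set.countable_range _
    exact (hcount.union hAc).mono fun f hf => by
      by_cases h : f ∈ A
      · exact Or.inr h
      · exact Or.inl ⟨hf, h⟩

end Pool.Agent.Results.MP_eca5e6_al.ExpGrowth
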